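import Mathlib
import Pool.Agent.H70.Dag1

set_option autoImplicit false

namespace Pool.Agent.Results.MP_3f84da_ag.Iff

open MvPolynomial Relation Pool.Agent.H70.Dag

/-- indices of the coordinates `σ_ij`, `i ≤ j` -/
abbrev Idx (n : ℕ) := {p : Fin n × Fin n // p.1 ≤ p.2}

/-- the ring `ℂ[a_i, λ_kl]` -/
abbrev P (n : ℕ) := MvPolynomial (Fin n ⊕ Fin n × Fin n) ℂ

variable {n : ℕ}

/-- no collider on the vertex list -/
def NC (E : Fin n → Fin n → Prop) (l : List (Fin n)) : Prop :=
  ∀ l₁ x y z l₂, l = l₁ ++ x :: y :: z :: l₂ → ¬(E x y ∧ E z y)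

/-- simple treks from `i` to `j`, as lists of vertices -/
def Trek (E : Fin n → Fin n → Prop) (i j : Fin n) (l : List (Fin n)) : Prop :=
  l.head? = some i ∧ l.getLast? = some j ∧ l.Nodup ∧ l.IsChain (fun x y => E x y ∨ E y x) ∧ NC E l

/-- product of the `λ` of the edges of a path (edges go from smaller to larger label) -/
noncomputable def lam : List (Fin n) → P n
  | x :: y :: t => X (.inr (min x y, max x y)) * lam (y :: t)
  | _ => 1

/-- the trek monomial: the top of a trek starting at `i` is its least vertex -/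
noncomputable def mon (i : Fin n) (l : List (Fin n)) : P n := X (.inl (l.foldr min i)) * lam l

/-- the simple trek rule `φ_G` -/
noncomputable def phi (E : Fin n → Fin n → Prop) : MvPolynomial (Idx n) ℂ →ₐ[ℂ] P n :=
  aeval fun e => ∑ᶠ l ∈ {l | Trek E e.1.1 e.1.2 l}, mon e.1.1 l

/-- shortest treks -/
def Short (E : Fin n → Fin n → Prop) (i j : Fin n) (l : List (Fin n)) : Prop :=
  Trek E i j l ∧ ∀ l', Trek E i j l' → l.length ≤ l'.length

/-- the shortest trek map is defined -/
def PsiDefined (E : Fin n → Fin n → Prop) : Prop :=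
  ∀ i j, i < j → (∃ l, Trek E i j l) → ∃! l, Short E i j l

/-- the shortest trek map `ψ_G` (the sum has at most one term when the map is defined) -/
noncomputable def psi (E : Fin n → Fin n → Prop) : MvPolynomial (Idx n) ℂ →ₐ[ℂ] P n :=
  aeval fun e => ∑ᶠ l ∈ {l | Short E e.1.1 e.1.2 l}, mon e.1.1 l

/-- toric ideals: kernels of homomorphisms sending each variable to a monomial or to `0` -/
def Toric {ι : Type} (I : Ideal (MvPolynomial ι ℂ)) : Prop :=
  ∃ (σ : Type) (χ : ι → MvPolynomial σ ℂ), (∀ e, χ e = 0 ∨ ∃ d, χ e = monomial d 1) ∧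
    RingHom.ker (aeval χ : MvPolynomial ι ℂ →ₐ[ℂ] MvPolynomial σ ℂ) = I

variable {E : Fin n → Fin n → Prop}

theorem fin (i j : Fin n) : {l | Trek E i j l}.Finite :=
  (Set.finite_coe_iff (s := {l : List (Fin n) | l.Nodup}) |>.1
    (inferInstanceAs (Finite {l : List (Fin n) // l.Nodup}))).subset fun _ h => h.2.2.1

noncomputable def T (E : Fin n → Fin n → Prop) (i j : Fin n) : Finset (List (Fin n)) :=
  (fin (E := E) i j).toFinset

theorem mem_T {i j : Fin n} {l : List (Fin n)} : l ∈ T E i j ↔ Trek E i j l := by simp [T]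

noncomputable def S (E : Fin n → Fin n → Prop) (i j : Fin n) : P n := ∑ l ∈ T E i j, mon i l

theorem NC.tail {x : Fin n} {l : List (Fin n)} (h : NC E (x :: l)) : NC E l :=
  fun l₁ a b c l₂ e => h (x :: l₁) a b c l₂ (by rw [e]; rfl)

theorem top_le (i : Fin n) (l : List (Fin n)) :
    l.foldr min i ∈ i :: l ∧ ∀ v ∈ i :: l, l.foldr min i ≤ v := by
  induction l with
  | nil => simp
  | cons x l ih =>
    simp only [List.foldr_cons, List.mem_cons, forall_eq_or_imp] at ih ⊢
    refine ⟨?_, (min_le_right _ _).trans ih.2.1, min_le_left _ _,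
      fun v hv => (min_le_right _ _).trans (ih.2.2 v hv)⟩
    rcases min_choice x (l.foldr min i) with e | e <;> rw [e] <;> tauto

theorem lam_app (l : List (Fin n)) (x y : Fin n) :
    lam (l ++ [x, y]) = lam (l ++ [x]) * X (.inr (min x y, max x y)) := by
  induction l with
  | nil => simp [lam]
  | cons a l ih => cases l <;> simp_all [lam, mul_assoc]

theorem lam_rev : ∀ l : List (Fin n), lam l.reverse = lam l
  | [] => rfl
  | [_] => rfl
  | x :: y :: t => by
    have := lam_rev (y :: t)
    simp only [List.reverse_cons, List.append_assoc, List.cons_append, List.nil_append] at this ⊢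
    rw [lam_app, this, lam, min_comm, max_comm, mul_comm]

theorem Trek.rev {i j : Fin n} {l : List (Fin n)} (h : Trek E i j l) : Trek E j i l.reverse :=
  ⟨by simpa using h.2.1, by simpa using h.1, by simpa using h.2.2.1,
    by simpa [List.isChain_reverse, or_comm] using h.2.2.2.1, fun l₁ x y z l₂ e k =>
    h.2.2.2.2 l₂.reverse z y x l₁.reverse (by simpa using congrArg List.reverse e) k.symm⟩

theorem S_symm (i j : Fin n) : S E i j = S E j i := by
  refine Finset.sum_bij' (fun l _ => l.reverse) (fun l _ => l.reverse)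
    (fun l h => mem_T.2 (mem_T.1 h).rev) (fun l h => mem_T.2 (mem_T.1 h).rev) (by simp) (by simp)
    fun l h => ?_
  have h1 := List.mem_of_mem_head? (mem_T.1 h).1
  have h2 := List.mem_of_mem_getLast? (mem_T.1 h).2.1
  have a := top_le i l
  have b := top_le j l.reverse
  simp only [List.mem_cons, List.mem_reverse] at a b
  rw [mon, mon, lam_rev, le_antisymm (a.2 _ (Or.inr (b.1.elim (fun e => by rwa [e]) id)))
    (b.2 _ (Or.inr (a.1.elim (fun e => by rwa [e]) id)))]

theorem Trek.diag {i : Fin n} {l : List (Fin n)} : Trek E i i l ↔ l = [i] := by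
  refine ⟨fun ⟨h1, h2, h3, _⟩ => ?_, fun h => h ▸ ⟨rfl, rfl, by simp, by simp,
    fun l₁ _ _ _ _ e => by have := congrArg List.length e; simp at this; omega⟩⟩
  match l, h1, h2, h3 with
  | [x], h1, _, _ => simpa using h1
  | x :: y :: t, h1, h2, h3 =>
    obtain rfl : x = i := by simpa using h1
    rw [List.getLast?_cons_cons] at h2
    exact ((List.nodup_cons.1 h3).1 (List.mem_of_mem_getLast? h2)).elim

theorem up (hE : ∀ k l, E k l → k < l) {j : Fin n} : ∀ (t : List (Fin n)) (x y : Fin n),
    (x :: y :: t).IsChain (fun x y => E x y ∨ E y x) → NC E (x :: y :: t) → E x y →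
    (y :: t).getLast? = some j → ∀ v ∈ y :: t, v ≤ j
  | [], x, y, _, _, _, h => by simpa using (by simpa using h : y = j).le
  | z :: t, x, y, h1, h2, h3, h4 => by
    rw [List.isChain_cons_cons] at h1
    have e : E y z := (List.isChain_cons_cons.1 h1.2).1.resolve_right
      fun k => h2 [] x y z t rfl ⟨h3, k⟩
    have := up hE t y z h1.2 h2.tail e (by simpa using h4)
    simp only [List.mem_cons, forall_eq_or_imp] at this ⊢
    exact ⟨(hE _ _ e).le.trans this.1, this⟩

theorem bd (hE : ∀ k l, E k l → k < l) {j : Fin n} : ∀ (t : List (Fin n)) (x : Fin n),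
    (x :: t).IsChain (fun x y => E x y ∨ E y x) → NC E (x :: t) →
    (x :: t).getLast? = some j → ∀ v ∈ x :: t, v ≤ x ∨ v ≤ j
  | [], x, _, _, _ => by simp
  | y :: t, x, h1, h2, h3 => by
    intro v hv
    rcases List.mem_cons.1 hv with rfl | hv
    · exact Or.inl le_rfl
    rcases (List.isChain_cons_cons.1 h1).1 with e | e
    · exact Or.inr (up hE t x y h1 h2 e (by simpa using h3) v hv)
    · exact (bd hE t y (List.isChain_cons_cons.1 h1).2 h2.tail (by simpa using h3) v hv).imp_left
        fun k => k.trans (hE _ _ e).le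

theorem trek_cons (hE : ∀ k l, E k l → k < l) {i j : Fin n} (h : i < j) (l : List (Fin n)) :
    Trek E j i l ↔ ∃ c, E c j ∧ ∃ t, Trek E c i t ∧ j :: t = l := by
  constructor
  · rintro ⟨h1, h2, h3, h4, h5⟩
    match l, h1, h2, h3, h4, h5 with
    | [x], h1, h2, _, _, _ => simp_all
    | x :: y :: t, h1, h2, h3, h4, h5 =>
      obtain rfl : x = j := by simpa using h1
      rw [List.getLast?_cons_cons] at h2
      refine ⟨y, (List.isChain_cons_cons.1 h4).1.resolve_left fun e => ?_, y :: t,
        ⟨rfl, h2, h3.of_cons, (List.isChain_cons_cons.1 h4).2, h5.tail⟩, rfl⟩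
      exact ((hE _ _ e).trans_le (up hE t x y h4 h5 e h2 y (by simp))).not_gt h
  · rintro ⟨c, e, t, ⟨h1, h2, h3, h4, h5⟩, rfl⟩
    match t, h1, h2, h3, h4, h5 with
    | y :: t, h1, h2, h3, h4, h5 =>
      obtain rfl : y = c := by simpa using h1
      refine ⟨rfl, by simpa using h2, List.nodup_cons.2 ⟨fun k => ?_, h3⟩,
        List.isChain_cons_cons.2 ⟨Or.inr e, h4⟩, ?_⟩
      · exact (bd hE t y h4 h5 h2 j k).elim (hE _ _ e).not_ge h.not_ge
      · rintro (_ | ⟨a, l₁⟩) x y' z l₂ k k'
        · simp only [List.nil_append, List.cons.injEq] at k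
          obtain ⟨rfl, rfl, -⟩ := k
          exact (hE _ _ e).not_gt (hE _ _ k'.1)
        · exact h5 l₁ x y' z l₂ (List.cons.inj k).2 k'

variable [DecidableRel E]

theorem sys (hE : ∀ k l, E k l → k < l) : PSys E (fun v => v.1) (S E) := by
  refine ⟨S_symm, fun c => ?_, fun i j h => ?_⟩
  · rw [S, show T E c c = {[c]} by ext; simp [mem_T, Trek.diag]]
    simp [mon, lam]
  · have : T E j i = (Finset.univ.filter fun c => E c j).biUnion
        fun c => (T E c i).image (j :: ·) := by
      ext l; simp [mem_T, trek_cons hE h]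
    rw [S_symm, S, this, Finset.sum_biUnion]
    · refine Finset.sum_congr rfl fun c hc => ?_
      have hc := hE _ _ (Finset.mem_filter.1 hc).2
      rw [Finset.sum_image fun _ _ _ _ e => (List.cons.inj e).2, S_symm, S, Finset.sum_mul]
      refine Finset.sum_congr rfl fun t ht => ?_
      obtain ⟨t, rfl⟩ : ∃ u, t = c :: u := by
        have := (mem_T.1 ht).1
        cases t <;> simp_all
      have a := top_le j (j :: c :: t)
      have b := top_le c (c :: t)
      have : (j :: c :: t).foldr min j = (c :: t).foldr min c := by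
        refine le_antisymm (a.2 _ (by have := b.1; simp only [List.mem_cons] at *; tauto)) ?_
        have := a.1
        simp only [List.mem_cons] at this b
        rcases this with e | e | e
        exacts [((b.2 c (Or.inl rfl)).trans hc.le).trans_eq e.symm,
          ((b.2 c (Or.inl rfl)).trans hc.le).trans_eq e.symm, b.2 _ (Or.inr e)]
      rw [mon, mon, this, lam, min_eq_right hc.le, max_eq_left hc.le]
      ring
    · intro c _ c' _ e
      simp only [Function.onFun, Finset.disjoint_left, Finset.mem_image, mem_T]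
      rintro _ ⟨t, h1, rfl⟩ ⟨t', h2, k⟩
      obtain rfl := (List.cons.inj k).2
      exact e (Option.some.inj (h1.1.symm.trans h2.1))

omit [DecidableRel E]

noncomputable def th : P n →ₐ[ℂ] Polynomial (P n) :=
  aeval (Sum.elim (fun c => Polynomial.C (X (.inl c)))
    fun e => Polynomial.C (X (.inr e)) * Polynomial.X)

theorem th_lam : ∀ l : List (Fin n),
    th (lam l) = Polynomial.C (lam l) * Polynomial.X ^ (l.length - 1)
  | [] => by simp [lam]
  | [_] => by simp [lam]
  | x :: y :: t => by
    rw [lam, map_mul, th_lam (y :: t)]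
    simp [th]; ring

noncomputable def ta : P n →* P n where
  toFun f := (th f).trailingCoeff
  map_one' := by simp [Polynomial.trailingCoeff]
  map_mul' f g := by rw [map_mul, Polynomial.trailingCoeff_mul]

noncomputable def one : P n →ₐ[ℂ] ℂ := aeval fun _ => 1

theorem one_lam : ∀ l : List (Fin n), one (lam l) = 1
  | [] => by simp [lam]
  | [_] => by simp [lam]
  | x :: y :: t => by rw [lam, map_mul, one_lam (y :: t)]; simp [one]

open Classical in
noncomputable def Sh (E : Fin n → Fin n → Prop) (i j : Fin n) : Finset (List (Fin n)) :=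
  (T E i j).filter (Short E i j)

theorem mem_Sh {i j : Fin n} {l : List (Fin n)} : l ∈ Sh E i j ↔ Short E i j l := by
  simpa [Sh, mem_T] using fun h => h.1

theorem one_U (i j : Fin n) : one (∑ l ∈ Sh E i j, mon i l) = (Sh E i j).card := by
  have : ∀ l, one (mon i l) = 1 := fun l => by rw [mon, map_mul, one_lam]; simp [one]
  simp [this]

theorem tr {i j : Fin n} {l : List (Fin n)} (h : Short E i j l) :
    (th (S E i j)).natTrailingDegree = l.length - 1 ∧ ta (S E i j) = ∑ l ∈ Sh E i j, mon i l ∧
      th (S E i j) ≠ 0 := by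
  classical
  have c : ∀ d, (th (S E i j)).coeff d = ∑ t ∈ T E i j with t.length - 1 = d, mon i t := fun d => by
    simp only [S, map_sum, mon, map_mul, th_lam, Polynomial.finsetSum_coeff, Finset.sum_filter]
    refine Finset.sum_congr rfl fun t _ => ?_
    simp [th, ← mul_assoc, ← map_mul, Polynomial.coeff_C_mul_X_pow, eq_comm]
  have p : ∀ t, Trek E i j t → 0 < t.length := fun t ht => by
    have := ht.1
    cases t <;> simp_all
  have c1 : (th (S E i j)).coeff (l.length - 1) = ∑ l ∈ Sh E i j, mon i l := by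
    rw [c]
    congr 1
    ext t
    simp only [Finset.mem_filter, mem_T, mem_Sh]
    refine ⟨fun ⟨a, b⟩ => ⟨a, fun u hu => ?_⟩, fun a => ⟨a.1, ?_⟩⟩
    · have := h.2 u hu; have := p t a; have := p l h.1; omega
    · have := h.2 t a.1; have := a.2 l h.1; omega
  have c2 : (th (S E i j)).coeff (l.length - 1) ≠ 0 := fun e => by
    have := one_U (E := E) i j
    rw [← c1, e, map_zero, eq_comm, Nat.cast_eq_zero, Finset.card_eq_zero] at this
    simpa [this] using mem_Sh.2 h
  have c3 : th (S E i j) ≠ 0 := fun e => c2 (by simp [e])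
  have c4 : (th (S E i j)).natTrailingDegree = l.length - 1 :=
    le_antisymm (Polynomial.natTrailingDegree_le_of_ne_zero c2)
      (Polynomial.le_natTrailingDegree c3 fun m hm => by
        rw [c]
        refine Finset.sum_eq_zero fun t ht => ?_
        simp only [Finset.mem_filter, mem_T] at ht
        have := h.2 t ht.1
        omega)
  exact ⟨c4, by rw [← c1, ← c4]; rfl, c3⟩

theorem ex_short {i j : Fin n} (h : ∃ l, Trek E i j l) : ∃ l, Short E i j l := by
  obtain ⟨l, h1, h2⟩ := (T E i j).exists_min_image List.length (h.imp fun _ => mem_T.2)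
  exact ⟨l, mem_T.1 h1, fun t ht => h2 t (mem_T.2 ht)⟩

theorem ex_of {i j : Fin n} (h : S E i j ≠ 0) : ∃ l, Short E i j l := by
  obtain ⟨l, hl, -⟩ := Finset.exists_ne_zero_of_sum_ne_zero h
  exact ex_short ⟨l, mem_T.1 hl⟩

theorem ta_S (i j : Fin n) : ta (S E i j) = ∑ l ∈ Sh E i j, mon i l := by
  by_cases h : ∃ l, Trek E i j l
  · obtain ⟨l, hl⟩ := ex_short h
    exact (tr hl).2.1
  · have : T E i j = ∅ := Finset.eq_empty_of_forall_notMem fun l hl => h ⟨l, mem_T.1 hl⟩
    simp [S, Sh, this, ta]

theorem phi_X (e : Idx n) : phi E (X e) = S E e.1.1 e.1.2 := by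
  rw [phi, aeval_X, finsum_mem_eq_finite_toFinset_sum _ (fin _ _)]; rfl

theorem psi_X (e : Idx n) : psi E (X e) = ta (S E e.1.1 e.1.2) := by
  rw [psi, aeval_X, ta_S, ← finsum_mem_coe_finset]
  congr! 3
  simp [mem_Sh]

theorem psi_mon (m : Idx n →₀ ℕ) : psi E (monomial m 1) = ta (phi E (monomial m 1)) := by
  simp only [monomial_eq, C_1, one_mul, Finsupp.prod, map_prod, map_pow, phi_X, psi_X]

theorem lam_mon : ∀ l : List (Fin n), ∃ d, lam l = monomial d 1
  | [] => ⟨0, rfl⟩
  | [_] => ⟨0, rfl⟩
  | x :: y :: t => by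
    obtain ⟨d, h⟩ := lam_mon (y :: t)
    exact ⟨_, by rw [lam, h, X, monomial_mul, one_mul]⟩

theorem two_le {i j : Fin n} {l : List (Fin n)} (h : Trek E i j l) (e : i ≠ j) : 2 ≤ l.length := by
  match l, h with
  | [], h => simpa using h.1
  | [x], h => exact (e ((by simpa using h.1 : x = i).symm.trans (by simpa using h.2.1))).elim
  | _ :: _ :: _, _ => simp

theorem result : ∀ (n : ℕ) (E : Fin n → Fin n → Prop), (∀ i j, E i j → i < j) →
    (Toric (RingHom.ker (phi E)) ↔ PsiDefined E ∧ RingHom.ker (phi E) = RingHom.ker (psi E)) := by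
  classical
  intro n E hE
  refine ⟨fun ⟨σ, χ, h1, h2⟩ => ?_, fun ⟨h1, h2⟩ => ⟨_, fun e => psi E (X e), fun e => ?_, by
    rw [h2]; congr 1; exact (aeval_unique _).symm⟩⟩
  swap
  · simp only [psi_X, ta_S]
    rcases (Sh E e.1.1 e.1.2).eq_empty_or_nonempty with k | ⟨l, k⟩
    · simp [k]
    have : Sh E e.1.1 e.1.2 = {l} := by
      refine Finset.eq_singleton_iff_unique_mem.2 ⟨k, fun t ht => ?_⟩
      rw [mem_Sh] at k ht
      rcases e.2.eq_or_lt with a | a
      · rw [← a] at k ht
        rw [Trek.diag.1 k.1, Trek.diag.1 ht.1]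
      · exact (h1 _ _ a ⟨l, k.1⟩).unique ht k
    obtain ⟨d, h⟩ := lam_mon l
    exact Or.inr ⟨_, by rw [this, Finset.sum_singleton, mon, h, X, monomial_mul, one_mul]⟩
  have R : Rk E fun v => v.1 := ⟨Fin.val_injective, hE⟩
  have sy := sys hE
  have cr := fun i j => core R sy (fun k l => (⟨(min k l, max k l), min_le_max⟩ : Idx n))
    (fun k l c e => by
      simp only [Subtype.mk.injEq, Prod.mk.injEq, min_self, max_self] at e
      exact ⟨le_antisymm (e.2 ▸ le_max_left _ _) (e.1 ▸ min_le_left _ _),
        le_antisymm (e.2 ▸ le_max_right _ _) (e.1 ▸ min_le_right _ _)⟩) (phi E)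
    (fun k l => by
      rw [phi_X]
      rcases le_total k l with e | e <;> simp [e, S_symm l]) (h2 ▸ bin_ker χ h1) (i := i) (j := j)
  let ι : P n →ₐ[ℂ] FractionRing (P n) := IsScalarTower.toAlgHom _ _ _
  have ιi : Function.Injective ι := IsFractionRing.injective _ _
  let ρ : P n →ₐ[ℂ] FractionRing (P n) := aeval (Sum.elim (fun c => ι (X (.inl c)))
    fun e => ι (S E e.1 e.2) / ι (X (.inl e.1)))
  have a0 : ∀ c, ι (X (.inl c)) ≠ 0 := fun c => (map_ne_zero_iff _ ιi).2 (X_ne_zero _)
  have tX : ∀ c : Fin n, ta (X (.inl c)) = X (.inl c) := fun c => by simp [ta, th, Polynomial.trailingCoeff]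
  have key : ∀ d i j, (th (S E i j)).natTrailingDegree = d → S E i j ≠ 0 →
      one (ta (S E i j)) = 1 ∧ ρ (ta (S E i j)) = ι (S E i j) := fun d => by
    induction d using Nat.strong_induction_on with
    | _ d ih =>
      intro i j hd h0
      wlog hij : i ≤ j generalizing i j
      · rw [S_symm] at hd h0 ⊢
        exact this j i hd h0 (le_of_not_ge hij)
      rcases hij.eq_or_lt with rfl | hij
      · rw [sy.diag, tX]; simp [one, ρ]
      by_cases e : E i j
      · have : Sh E i j = {[i, j]} := by
          have t : Trek E i j [i, j] := ⟨rfl, rfl, by simp [hij.ne], by simp [e],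
            fun l₁ _ _ _ _ e => by have := congrArg List.length e; simp at this; omega⟩
          refine Finset.eq_singleton_iff_unique_mem.2
            ⟨mem_Sh.2 ⟨t, fun l hl => two_le hl hij.ne⟩, fun l hl => ?_⟩
          rw [mem_Sh] at hl
          obtain ⟨x, y, rfl⟩ := List.length_eq_two.1 (le_antisymm (hl.2 _ t) (two_le hl.1 hij.ne))
          rw [(by simpa using hl.1.1 : x = i), (by simpa using hl.1.2.1 : y = j)]
        rw [ta_S, this]
        simp [mon, lam, hij.le, one, ρ, mul_div_cancel₀ _ (a0 i)]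
      obtain ⟨c, c1, c2, c3⟩ := cr i j hij e (by_contra fun k =>
        h0 (sy.zero R (L := E) (fun _ _ a b => (b a).elim) i j k))
      have id : S E i j * X (.inl c) = S E i c * S E c j := by
        rcases c3 with c3 | c3
        · rw [S_symm i j, sy.ci R c j i (Or.inr fun k => c3 k.symm)
            (Or.inr (Or.inr fun k => c2 k.symm)), S_symm j c, S_symm c i, mul_comm]
        · exact sy.ci R c i j (Or.inr fun k => c3 k.symm) (Or.inr (Or.inr c2))
      obtain ⟨n1, n2⟩ := mul_ne_zero_iff.1 (id ▸ mul_ne_zero h0 (X_ne_zero _))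
      obtain ⟨l0, s0⟩ := ex_of h0
      obtain ⟨l1, s1⟩ := ex_of n1
      obtain ⟨l2, s2⟩ := ex_of n2
      have b1 := two_le s1.1 fun k => e (k ▸ c1)
      have b2 := two_le s2.1 (hE _ _ c1).ne
      have b3 := congrArg (fun f => (th f).natTrailingDegree) id
      have b4 : th (X (.inl c)) = Polynomial.C (X (.inl c)) := by simp [th]
      simp only [map_mul, b4] at b3
      rw [Polynomial.natTrailingDegree_mul (tr s0).2.2 (by simp),
        Polynomial.natTrailingDegree_mul (tr s1).2.2 (tr s2).2.2, hd, Polynomial.natTrailingDegree_C]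
        at b3
      have i1 := ih _ (by rw [(tr s2).1] at b3; omega) i c rfl n1
      have i2 := ih _ (by rw [(tr s1).1] at b3; omega) c j rfl n2
      have b5 := congrArg ta id
      rw [map_mul, map_mul, tX] at b5
      constructor
      · have := congrArg one b5
        rw [map_mul, map_mul, i1.1, i2.1] at this
        simpa [one] using this
      · have := congrArg ρ b5
        rw [map_mul, map_mul, i1.2, i2.2, ← map_mul ι, ← id, map_mul] at this
        exact mul_right_cancel₀ (a0 c) (by simpa [ρ] using this)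
  refine ⟨fun i j _ h => ?_, le_antisymm ?_ fun f hf => ?_⟩
  · obtain ⟨l, hl⟩ := ex_short h
    have := (key _ i j rfl fun e => (tr hl).2.2 (by rw [e, map_zero])).1
    rw [ta_S, one_U, Nat.cast_eq_one, Finset.card_eq_one_iff_existsUnique] at this
    simpa only [mem_Sh] using this
  · have k : ∀ f, aeval χ f = 0 ↔ phi E f = 0 := fun f => SetLike.ext_iff.1 h2 f
    rw [← h2]
    refine ker_le χ h1 _ (fun m hm => ?_) fun m m' hm => ?_
    · rw [RingHom.mem_ker, psi_mon, (k _).1 hm]; simp [ta]
    · have := (k (monomial m 1 - monomial m' 1)).1 (by rw [map_sub, hm, sub_self])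
      rw [map_sub, sub_eq_zero] at this
      rw [RingHom.mem_ker, map_sub, psi_mon, psi_mon, this, sub_self]
  · have : ρ.comp (psi E) = ι.comp (phi E) := algHom_ext fun e => by
      simp only [AlgHom.comp_apply, psi_X, phi_X]
      by_cases k : S E e.1.1 e.1.2 = 0
      · simp [k, ta]
      · exact (key _ _ _ rfl k).2
    have := DFunLike.congr_fun this f
    rw [AlgHom.comp_apply, RingHom.mem_ker.1 hf, map_zero] at this
    exact (map_eq_zero_iff _ ιi).1 this.symm

end Pool.Agent.Results.MP_3f84da_ag.Iff
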